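import Pool.Agent.Helper95.FX.PenB

set_option autoImplicit false

/-!
# Project FX, chapter K, module PEN: the pencil lemma
-/

namespace Pool.Agent.Helper95.FX

open Polynomial
open Pool.Agent.Helper72.FX

section pen

variable {B : Type} [CommRing B]

theorem coeff_pow_zero (E s : B) {M : Type} [AddCommGroup M] [Module B M]
    (g : PolynomialModule B M) (h : ∀ n, E • g.coeff n = s • g.coeff (n + 1)) :
    ∃ k : ℕ, E ^ k • g.coeff 0 = 0 := by
  have key : ∀ j n, g.coeff.support.sup id < n + j → E ^ j • g.coeff n = 0 := by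
    intro j
    induction j with
    | zero =>
      intro n hn
      by_contra h0
      have h1 : g.coeff n ≠ 0 := by
        intro h2
        exact h0 (by rw [h2, smul_zero])
      have h2 : n ≤ g.coeff.support.sup id := Finset.le_sup (f := id) (Finsupp.mem_support_iff.2 h1)
      omega
    | succ j ih =>
      intro n hn
      rw [pow_succ, mul_smul, h, smul_comm, ih (n + 1) (by omega), smul_zero]
  exact ⟨g.coeff.support.sup id + 1, key _ 0 (by omega)⟩

/-- the constants -/
noncomputable def cst (E s : B) (M : Type) [AddCommGroup M] [Module B M] :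
    M →ₗ[B] Ck (pel E s) (PolynomialModule B M) where
  toFun m := Submodule.Quotient.mk (PolynomialModule.single B 0 m)
  map_add' x y := by rw [PolynomialModule.single_add, Submodule.Quotient.mk_add]
  map_smul' b m := by rw [PolynomialModule.single_smul, Submodule.Quotient.mk_smul, RingHom.id_apply]

theorem cst_mem (E s : B) (M : Type) [AddCommGroup M] [Module B M] (m : M) :
    cst E s M m = 0 ↔ PolynomialModule.single B 0 m ∈
      LinearMap.range (LinearMap.lsmul B[X] (PolynomialModule B M) (pel E s)) :=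
  Submodule.Quotient.mk_eq_zero _

theorem cst_pow (E s : B) (M : Type) [AddCommGroup M] [Module B M] (m : M)
    (h : cst E s M m = 0) : ∃ k : ℕ, E ^ k • m = 0 := by
  rw [cst_mem] at h
  obtain ⟨g, hg⟩ := h
  rw [LinearMap.lsmul_apply] at hg
  have h0 : - (s • g.coeff 0) = m := by
    rw [← pm_smul_coeff_zero E s g]
    change (pel E s • g).coeff 0 = m
    rw [hg]
    simp
  have h1 : ∀ n, E • g.coeff n = s • g.coeff (n + 1) := by
    intro n
    have h2 := pm_smul_coeff_succ E s g n
    change (pel E s • g).coeff (n + 1) = _ at h2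
    rw [hg] at h2
    have h3 : (PolynomialModule.single B 0 m).coeff (n + 1) = 0 := by simp
    rw [h3] at h2
    exact (sub_eq_zero.1 h2.symm)
  obtain ⟨k, hk⟩ := coeff_pow_zero E s g h1
  refine ⟨k, ?_⟩
  rw [← h0, smul_neg, smul_comm, hk, smul_zero, neg_zero]

theorem X_pow_single {M : Type} [AddCommGroup M] [Module B M] (n : ℕ) (m : M) :
    (X ^ n : B[X]) • PolynomialModule.single B 0 m = PolynomialModule.single B n m := by
  rw [X_pow_eq_monomial, PolynomialModule.monomial_smul_single, add_zero, one_smul]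

/-- the lattice of the constants -/
noncomputable abbrev M0 (E s : B) (M : Type) [AddCommGroup M] [Module B M] :
    Submodule B (Ck (pel E s) (PolynomialModule B M)) := LinearMap.range (cst E s M)

theorem Phi_M0 (E s : B) (M : Type) [AddCommGroup M] [Module B M] (g : PolynomialModule B M) :
    Phi (M0 E s M) (pmap (cst E s M).rangeRestrict g) = Submodule.Quotient.mk g := by
  induction g using PolynomialModule.induction_linear with
  | zero => simp
  | add p q hp hq => rw [map_add, map_add, hp, hq, Submodule.Quotient.mk_add]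
  | single n m =>
    rw [pmap_single, Phi_single]
    change (X ^ n : B[X]) • (Submodule.Quotient.mk (PolynomialModule.single B 0 m) :
      Ck (pel E s) (PolynomialModule B M)) = _
    rw [← Submodule.Quotient.mk_smul, X_pow_single]

theorem gdl_M0 (E s : B) (M : Type) [AddCommGroup M] [Module B M] (hf : Module.Finite B M) :
    GdL (M0 E s M) := by
  refine ⟨Module.Finite.iff_fg.1 (Module.Finite.range _), fun y => ?_⟩
  obtain ⟨g, rfl⟩ := Submodule.Quotient.mk_surjective _ y
  exact ⟨_, Phi_M0 E s M g⟩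

theorem KM_M0 (hPMX : StPMX) (E s : B) (M : Type) [AddCommGroup M] [Module B M] :
    Subsingleton (KM E s (M0 E s M)) := by
  have key : ∀ x : KM E s (M0 E s M), x = 0 := by
    intro x
    obtain ⟨⟨g0, hg0⟩, rfl⟩ := Submodule.Quotient.mk_surjective _ x
    rw [Submodule.Quotient.mk_eq_zero, Submodule.mem_comap]
    obtain ⟨g, rfl⟩ := (hPMX B M (M0 E s M) PUnit (cst E s M).rangeRestrict 0).2.1
      (LinearMap.surjective_rangeRestrict _) g0
    rw [LinearMap.mem_ker, Phi_M0, Submodule.Quotient.mk_eq_zero] at hg0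
    obtain ⟨h, rfl⟩ := hg0
    exact ⟨pmap (cst E s M).rangeRestrict h, by
      rw [LinearMap.lsmul_apply]
      exact (map_smul (pmap (cst E s M).rangeRestrict) (pel E s) h).symm⟩
  exact ⟨fun a b => by rw [key a, key b]⟩

theorem N0_mem (E s : B) (M : Type) [AddCommGroup M] [Module B M]
    (g : PolynomialModule B (LinearMap.ker (cst E s M))) :
    pmap (LinearMap.ker (cst E s M)).subtype g ∈
      LinearMap.range (LinearMap.lsmul B[X] (PolynomialModule B M) (pel E s)) := by
  induction g using PolynomialModule.induction_linear with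
  | zero => rw [map_zero]; exact Submodule.zero_mem _
  | add p q hp hq => rw [map_add]; exact Submodule.add_mem _ hp hq
  | single n m =>
    rw [pmap_single, ← X_pow_single]
    exact Submodule.smul_mem _ _ ((cst_mem E s M _).1 m.2)

/-- the snake lemma for a quotient map, all the kernel being divisible -/
theorem snk_gen (hSNK : StSNK) (A : Type) [CommRing A] [IsNoetherianRing A] (P : MC A) (hP : Gd P)
    (Λ : Type) [AddCommGroup Λ] (τ : AF A P Λ) (K M M' : Type) [AddCommGroup K] [Module A K]
    [AddCommGroup M] [Module A M] [AddCommGroup M'] [Module A M'] (a : K →ₗ[A] M) (b : M →ₗ[A] M')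
    (x : A) (ha : Function.Injective a) (hab : Function.Exact a b) (hb : Function.Surjective b)
    (hr : ∀ y, a y ∈ LinearMap.range (LinearMap.lsmul A M x))
    (f2 : Module.Finite A (Kn x M)) (p2 : P (Kn x M)) (f3 : Module.Finite A (Kn x M'))
    (p3 : P (Kn x M')) (f1 : Module.Finite A (Ck x K)) (p1 : P (Ck x K)) :
    τ.f (Kn x M') = τ.f (Ck x K) - τ.f (Kn x K) + τ.f (Kn x M) := by
  let j : K →ₗ[A] LinearMap.range (LinearMap.lsmul A M x) := LinearMap.codRestrict _ a hr
  let g2 := (LinearMap.lsmul A M x).rangeRestrict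
  let g3 := (LinearMap.lsmul A M' x).rangeRestrict
  have hq : ∀ y ∈ LinearMap.range (LinearMap.lsmul A M x),
      b y ∈ LinearMap.range (LinearMap.lsmul A M' x) := by
    rintro _ ⟨y, rfl⟩
    exact ⟨b y, (map_smul b x y).symm⟩
  let q : LinearMap.range (LinearMap.lsmul A M x) →ₗ[A] LinearMap.range (LinearMap.lsmul A M' x) :=
    b.restrict hq
  have kg2 : LinearMap.ker g2 = LinearMap.ker (LinearMap.lsmul A M x) :=
    LinearMap.ker_rangeRestrict _
  have kg3 : LinearMap.ker g3 = LinearMap.ker (LinearMap.lsmul A M' x) :=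
    LinearMap.ker_rangeRestrict _
  have s2 : Function.Surjective g2 := LinearMap.surjective_rangeRestrict _
  have s3 : Function.Surjective g3 := LinearMap.surjective_rangeRestrict _
  have c2 : Subsingleton ((LinearMap.range (LinearMap.lsmul A M x)) ⧸ LinearMap.range g2) :=
    Submodule.Quotient.subsingleton_iff.2 (LinearMap.range_eq_top.2 s2)
  have c3 : Subsingleton ((LinearMap.range (LinearMap.lsmul A M' x)) ⧸ LinearMap.range g3) :=
    Submodule.Quotient.subsingleton_iff.2 (LinearMap.range_eq_top.2 s3)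
  have jinj : Function.Injective j := by
    intro y z hyz
    exact ha (congrArg Subtype.val hyz)
  have jex : Function.Exact j q := by
    rintro ⟨y, hy⟩
    constructor
    · intro h
      have h1 : b y = 0 := congrArg Subtype.val h
      obtain ⟨z, hz⟩ := (hab y).1 h1
      exact ⟨z, Subtype.ext hz⟩
    · rintro ⟨z, hz⟩
      apply Subtype.ext
      have h1 : a z = y := congrArg Subtype.val hz
      exact (hab y).2 ⟨z, h1⟩
  have qsurj : Function.Surjective q := by
    rintro ⟨_, y, rfl⟩
    obtain ⟨z, rfl⟩ := hb y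
    exact ⟨⟨_, z, rfl⟩, Subtype.ext (map_smul b x z)⟩
  have hmain := hSNK A P hP Λ τ K M M' K
    (LinearMap.range (LinearMap.lsmul A M x)) (LinearMap.range (LinearMap.lsmul A M' x))
    a b j q (LinearMap.lsmul A K x) g2 g3 ha hab hb jinj jex qsurj
    (LinearMap.ext fun y => Subtype.ext (map_smul a x y).symm)
    (LinearMap.ext fun y => Subtype.ext (map_smul b x y).symm)
    (by rw [kg2]; exact f2) (by rw [kg2]; exact p2)
    (by rw [kg3]; exact f3) (by rw [kg3]; exact p3) f1 p1
    inferInstance (hP.surj PUnit _ 0 (fun y => ⟨0, Subsingleton.elim _ _⟩) hP.zero)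
  rw [kg2, kg3, τ.of_subsingleton hP (_ ⧸ LinearMap.range g2),
    τ.of_subsingleton hP (_ ⧸ LinearMap.range g3), zero_sub, zero_sub] at hmain
  change τ.f (LinearMap.ker (LinearMap.lsmul A M' x)) = _ - _ + τ.f (LinearMap.ker (LinearMap.lsmul A M x))
  rw [eq_comm, ← sub_eq_zero] at hmain ⊢
  rw [← hmain]
  abel

theorem snk_app (hSNK : StSNK) (hPMX : StPMX) (hPTO : StPTO) [IsNoetherianRing B]
    (I : Ideal B) (E s : B) {Λ : Type} [AddCommGroup Λ]
    (τ : AF B[X] (kpw (pid I E s) (C E)) Λ) (M : Type) [AddCommGroup M] [Module B M]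
    (hf : Module.Finite B M) (hk : kil I M) :
    Module.Finite B (LinearMap.ker (cst E s M)) ∧ kpw I E (LinearMap.ker (cst E s M)) ∧
    Module.Finite B (M0 E s M) ∧ kil I (M0 E s M) ∧
    τ.f (Kn (pel E s) (PolynomialModule B (M0 E s M))) =
      τ.f (Ck (pel E s) (PolynomialModule B (LinearMap.ker (cst E s M)))) -
      τ.f (Kn (pel E s) (PolynomialModule B (LinearMap.ker (cst E s M)))) +
      τ.f (Kn (pel E s) (PolynomialModule B M)) := by
  have _ : IsNoetherian B M := isNoetherian_of_isNoetherianRing_of_finite _ _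
  have hιs : Function.Surjective (cst E s M).rangeRestrict := LinearMap.surjective_rangeRestrict _
  have f1 : Module.Finite B (LinearMap.ker (cst E s M)) := inferInstance
  have k1 : kpw I E (LinearMap.ker (cst E s M)) := by
    refine ⟨(gd_kil I).inj _ _ (LinearMap.ker (cst E s M)).subtype
      (LinearMap.ker (cst E s M)).injective_subtype hk, ?_⟩
    refine unif E f1 fun y => ?_
    obtain ⟨k, hk⟩ := cst_pow E s M y.1 y.2
    exact ⟨k, Subtype.ext hk⟩
  have f2 : Module.Finite B (M0 E s M) := Module.Finite.range _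
  have k2 : kil I (M0 E s M) := (gd_kil I).surj _ _ _ hιs hk
  refine ⟨f1, k1, f2, k2, ?_⟩
  have hex : Function.Exact (LinearMap.ker (cst E s M)).subtype (cst E s M).rangeRestrict := by
    intro y
    constructor
    · intro h
      exact ⟨⟨y, congrArg Subtype.val h⟩, rfl⟩
    · rintro ⟨x, rfl⟩
      exact Subtype.ext x.2
  obtain ⟨pi1, -, pe1, -⟩ := hPMX B (LinearMap.ker (cst E s M)) M (M0 E s M)
    (LinearMap.ker (cst E s M)).subtype (cst E s M).rangeRestrict
  obtain ⟨-, ps1, -⟩ := hPMX B M (M0 E s M) PUnit (cst E s M).rangeRestrict 0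
  have P1 := hPTO hPMX B I E s
  exact snk_gen hSNK B[X] (kpw (pid I E s) (C E)) (gd_kpw _ _) Λ τ _ _ _ _ _ (pel E s)
    (pi1 (LinearMap.ker (cst E s M)).injective_subtype) (pe1 hex) (ps1 hιs) (N0_mem E s M)
    (P1.1 M hf hk).1 (P1.1 M hf hk).2 (P1.1 (M0 E s M) f2 k2).1 (P1.1 (M0 E s M) f2 k2).2
    (P1.2.1 _ f1 k1).1 (P1.2.1 _ f1 k1).2

/-- second clause of the pencil lemma -/
theorem chiF_pen (hSNK : StSNK) (hPMX : StPMX) (hPTO : StPTO) (hPEA : StPEA) (hPEB : StPEB)
    [IsNoetherianRing B]
    (I : Ideal B) (E s : B) {Λ : Type} [AddCommGroup Λ] (χB : AF B (kil I) Λ)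
    (τ : AF B[X] (kpw (pid I E s) (C E)) Λ) (hC : Cmp χB τ) (M : Type) [AddCommGroup M] [Module B M]
    (hf : Module.Finite B M) (hk : kil I M) :
    chiF χB τ (Ck (pel E s) (PolynomialModule B M)) -
      chiF χB τ (Kn (pel E s) (PolynomialModule B M)) = χB.f M := by
  obtain ⟨f1, k1, f2, k2, hV⟩ := snk_app hSNK hPMX hPTO I E s τ M hf hk
  obtain ⟨hn1, hn2⟩ := (hPTO hPMX B I E s).1 M hf hk
  obtain ⟨k, hn4⟩ := hn2.2
  have hkil : kil (I.map C) (PolynomialModule B M) :=
    (hPMX B M PUnit PUnit (0 : M →ₗ[B] PUnit) 0).2.2.2.2.1 I hk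
  have hQ : kil (pid I E s) (Ck (pel E s) (PolynomialModule B M)) := by
    refine kil_sup ((gd_kil _).surj _ _ _ (Submodule.mkQ_surjective _) hkil) (kil_span ?_)
    intro y
    obtain ⟨g, rfl⟩ := Submodule.Quotient.mk_surjective _ y
    rw [← Submodule.Quotient.mk_smul, Submodule.Quotient.mk_eq_zero]
    exact ⟨g, rfl⟩
  rw [chiF_pow hSNK hPMX hPTO hPEA hPEB I E s χB τ hC k _ hn1 hn2.1 hn4,
    chiF_eq hSNK hPMX hPTO hPEA I E s χB τ hC (M0 E s M) hQ (gdl_M0 E s M hf)]
  unfold VL
  have _ := KM_M0 hPMX E s M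
  rw [τ.of_subsingleton (gd_kpw _ _) (KM E s (M0 E s M)), hV, ← hC _ f1 k1]
  have hex : Function.Exact (LinearMap.ker (cst E s M)).subtype (cst E s M).rangeRestrict := by
    intro y
    constructor
    · intro h
      exact ⟨⟨y, congrArg Subtype.val h⟩, rfl⟩
    · rintro ⟨x, rfl⟩
      exact Subtype.ext x.2
  have h1 := χB.exact' _ _ _ (LinearMap.ker (cst E s M)).subtype (cst E s M).rangeRestrict hf hk
    (LinearMap.ker (cst E s M)).injective_subtype hex (LinearMap.surjective_rangeRestrict _)
  rw [h1]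
  abel

end pen

theorem congr_sub {A : Type} [CommRing A] {P : MC A} {Λ : Type} [AddCommGroup Λ] (τ : AF A P Λ)
    {M : Type} [AddCommGroup M] [Module A M] {S S' : Submodule A M} (h : S = S') :
    τ.f S = τ.f S' := by
  subst h
  rfl

theorem congr_quot {A : Type} [CommRing A] {P : MC A} {Λ : Type} [AddCommGroup Λ] (τ : AF A P Λ)
    {M : Type} [AddCommGroup M] [Module A M] {S S' : Submodule A M} (h : S = S') :
    τ.f (M ⧸ S) = τ.f (M ⧸ S') := by
  subst h
  rfl

theorem hPEN : StPEN := by
  intro hSNK hPMX hDEV hPTO hPCM hPEA hPEB B _ _ I E s Λ _ χB χ0 hc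
  have hEq : pid I E s ⊔ Ideal.span {C E} = I.map C ⊔ Ideal.span {C E, C s} := by
    have h1 : (C E : B[X]) ∈ Ideal.span {(C E : B[X]), C s} := Ideal.subset_span (by simp)
    have h2 : (C s : B[X]) ∈ Ideal.span {(C E : B[X]), C s} := Ideal.subset_span (by simp)
    apply le_antisymm
    · refine sup_le (sup_le le_sup_left ?_) ?_
      · rw [Ideal.span_singleton_le_iff_mem]
        refine Ideal.mem_sup_right ?_
        exact Ideal.sub_mem _ (Ideal.mul_mem_right _ _ h1) h2
      · rw [Ideal.span_singleton_le_iff_mem]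
        exact Ideal.mem_sup_right h1
    · refine sup_le (le_sup_left.trans le_sup_left) ?_
      rw [Ideal.span_le]
      rintro x (rfl | hx)
      · exact Ideal.mem_sup_right (Ideal.mem_span_singleton_self _)
      · rw [Set.mem_singleton_iff] at hx
        subst hx
        have h3 : (C s : B[X]) = C E * X - pel E s := by
          unfold pel
          ring
        rw [h3]
        exact Ideal.sub_mem _ (Ideal.mem_sup_right (Ideal.mul_mem_right _ _
          (Ideal.mem_span_singleton_self _))) (Ideal.mem_sup_left pel_mem_pid)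
  obtain ⟨τ, hτ⟩ := hDEV B[X] (pid I E s) (C E) Λ (χ0.mono fun M _ _ h => by rw [hEq] at h; exact h)
  have hτ' : ∀ (M : Type) [AddCommGroup M] [Module B[X] M], Module.Finite B[X] M →
      kil (I.map C) M → (∀ y : M, (C E : B[X]) • y = 0) → (∀ y : M, (C s : B[X]) • y = 0) →
      τ.f M = χ0.f M := by
    intro M _ _ hf hk h1 h2
    refine hτ M hf ?_
    refine kil_sup (kil_sup hk (kil_span fun y => ?_)) (kil_span h1)
    unfold pel
    rw [sub_smul, h2, mul_comm, mul_smul, h1, smul_zero, sub_zero]
  have hC : Cmp χB τ := by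
    apply hPCM hSNK hPMX hPTO B I E s Λ χB τ
    intro N _ _ hf hk h0
    rw [hc N hf hk h0]
    obtain ⟨-, -, -, p4, p5, p6⟩ := hPMX B N PUnit PUnit (0 : N →ₗ[B] PUnit) 0
    have hfin := p4 hf
    have hkil := p5 I hk
    have hE : ∀ y : PolynomialModule B N, (C E : B[X]) • y = 0 := by
      intro y
      have h := p6 E 1 (fun y => by rw [pow_one]; exact h0 y) y
      rwa [pow_one] at h
    have _ : IsNoetherian B[X] (PolynomialModule B N) := isNoetherian_of_isNoetherianRing_of_finite _ _
    have hpi : ∀ y : PolynomialModule B N, pel E s • y = -((C s : B[X]) • y) := by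
      intro y
      unfold pel
      rw [sub_smul, mul_comm, mul_smul, hE, smul_zero, zero_sub]
    have hker : LinearMap.ker (LinearMap.lsmul B[X] (PolynomialModule B N) (pel E s)) =
        LinearMap.ker (LinearMap.lsmul B[X] (PolynomialModule B N) (C s)) := by
      ext y
      rw [LinearMap.mem_ker, LinearMap.mem_ker, LinearMap.lsmul_apply, LinearMap.lsmul_apply, hpi,
        neg_eq_zero]
    have hran : LinearMap.range (LinearMap.lsmul B[X] (PolynomialModule B N) (pel E s)) =
        LinearMap.range (LinearMap.lsmul B[X] (PolynomialModule B N) (C s)) := by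
      ext y
      constructor
      · rintro ⟨x, rfl⟩
        exact ⟨-x, by rw [LinearMap.lsmul_apply, LinearMap.lsmul_apply, hpi, smul_neg]⟩
      · rintro ⟨x, rfl⟩
        exact ⟨-x, by rw [LinearMap.lsmul_apply, LinearMap.lsmul_apply, hpi, smul_neg, neg_neg]⟩
    have e1 : τ.f (Kn (pel E s) (PolynomialModule B N)) = τ.f (Kn (C s) (PolynomialModule B N)) :=
      congr_sub τ hker
    have e2 : τ.f (Ck (pel E s) (PolynomialModule B N)) = τ.f (Ck (C s) (PolynomialModule B N)) :=
      congr_quot τ hran
    rw [e1, e2]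
    congr 1
    · refine (hτ' _ inferInstance ((gd_kil _).surj _ _ _ (Submodule.mkQ_surjective _) hkil)
        (fun y => ?_) (fun y => ?_)).symm
      · obtain ⟨g, rfl⟩ := Submodule.Quotient.mk_surjective _ y
        rw [← Submodule.Quotient.mk_smul, hE, Submodule.Quotient.mk_zero]
      · obtain ⟨g, rfl⟩ := Submodule.Quotient.mk_surjective _ y
        rw [← Submodule.Quotient.mk_smul, Submodule.Quotient.mk_eq_zero]
        exact ⟨g, rfl⟩
    · refine (hτ' _ inferInstance ((gd_kil _).inj _ _ _ (Submodule.injective_subtype _) hkil)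
        (fun y => ?_) (fun y => ?_)).symm
      · exact Subtype.ext (hE y.1)
      · exact Subtype.ext y.2
  refine ⟨chiA hSNK hPMX hPTO hPEA hPEB I E s χB τ hC, ?_, ?_⟩
  · intro N _ _ hf hk h0
    change chiF χB τ N = χ0.f N
    rw [chiF_tors hSNK hPMX hPTO hPEA I E s χB τ hC N hf hk h0]
    exact hτ N hf (kil_sup hk (kil_span h0))
  · intro M _ _ hf hk
    exact chiF_pen hSNK hPMX hPTO hPEA hPEB I E s χB τ hC M hf hk

end Pool.Agent.Helper95.FX
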