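import Pool.Agent.Helper87.FX.StA

set_option autoImplicit false

/-!
# Project FX (MP_3bffab_ag), chapter S, module LIM: the limit of the open cells
-/

namespace Pool.Agent.Helper95.FX

open Set Topology Metric Filter
open scoped ContDiff
open Pool.Agent.Helper87.FX

theorem hLIM : StLIM := by
  intro E V _ _ _ _ _ _ X K g r hKX hXK hOE hr0 hr hstep hK
  have hrn : ∀ n : ℕ, (n : ℝ) + 1 ≤ r n := by
    intro n
    induction n with
    | zero => simpa using hr0
    | succ n ih =>
      have := hr n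
      push_cast
      linarith
  have hag : ∀ m n : ℕ, m ≤ n → ∀ x ∈ closedBall (0 : E) (r m), g n x = g m x := by
    have hmono : Monotone r := monotone_nat_of_le_succ (fun n => by linarith [hr n])
    intro m n hmn
    induction n, hmn using Nat.le_induction with
    | base => intro x _; rfl
    | succ n hmn ih =>
      intro x hx
      rw [hstep n x (closedBall_subset_closedBall (hmono hmn) hx), ih x hx]
  have hin : ∀ x : E, x ∈ ball (0 : E) (r ⌈‖x‖⌉₊) := by
    intro x
    rw [mem_ball_zero_iff]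
    have h1 := Nat.le_ceil ‖x‖
    have h2 := hrn ⌈‖x‖⌉₊
    linarith
  let G : E → V := fun x => g ⌈‖x‖⌉₊ x
  have hG : ∀ n, ∀ x ∈ ball (0 : E) (r n), G x = g n x := by
    intro n x hx
    rcases le_total n ⌈‖x‖⌉₊ with h | h
    · exact hag _ _ h x (ball_subset_closedBall hx)
    · exact (hag _ _ h x (ball_subset_closedBall (hin x))).symm
  have hev : ∀ x : E, G =ᶠ[𝓝 x] g ⌈‖x‖⌉₊ := by
    intro x
    filter_upwards [isOpen_ball.mem_nhds (hin x)] with y hy
    exact hG _ y hy
  have hsm : ContDiff ℝ ∞ G := by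
    rw [contDiff_iff_contDiffAt]
    intro x
    exact (hOE _).sm.contDiffAt.congr_of_eventuallyEq (hev x)
  have hinj : Function.Injective G := by
    intro x y hxy
    have hmono : Monotone r := monotone_nat_of_le_succ (fun n => by linarith [hr n])
    set n := max ⌈‖x‖⌉₊ ⌈‖y‖⌉₊
    have hx : x ∈ ball (0 : E) (r n) := ball_subset_ball (hmono (le_max_left _ _)) (hin x)
    have hy : y ∈ ball (0 : E) (r n) := ball_subset_ball (hmono (le_max_right _ _)) (hin y)
    rw [hG n x hx, hG n y hy] at hxy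
    exact (hOE n).emb.injective hxy
  have hsub : ∀ x, G x ∈ X := fun x => (hOE _).sub (mem_range_self x)
  have hran : range G = X := by
    apply Subset.antisymm
    · rintro _ ⟨x, rfl⟩
      exact hsub x
    · intro y hy
      obtain ⟨n, hn⟩ := mem_iUnion.1 (hXK hy)
      obtain ⟨x, hx, rfl⟩ := hK n hn
      exact ⟨x, hG _ x hx⟩
  have hopen : ∀ U : Set E, IsOpen U → ∃ O : Set V, IsOpen O ∧ G '' U = X ∩ O := by
    intro U hU
    have h1 : ∀ n, ∃ O : Set V, IsOpen O ∧ g n '' (U ∩ ball 0 (r n)) = X ∩ O := by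
      intro n
      obtain ⟨O', hO', hE'⟩ := ((hOE n).emb.isInducing.isOpen_iff).1 (hU.inter (isOpen_ball (x := (0 : E)) (ε := r n)))
      obtain ⟨O'', hO'', hE''⟩ := (hOE n).opn
      refine ⟨O'' ∩ O', hO''.inter hO', ?_⟩
      rw [← hE', image_preimage_eq_inter_range, hE'']
      ext y
      simp only [mem_inter_iff]
      tauto
    choose O hO hE using h1
    refine ⟨⋃ n, O n, isOpen_iUnion hO, ?_⟩
    rw [inter_iUnion]
    ext y
    simp only [mem_iUnion]
    constructor
    · rintro ⟨x, hx, rfl⟩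
      refine ⟨⌈‖x‖⌉₊, ?_⟩
      rw [← hE]
      exact ⟨x, ⟨hx, hin x⟩, rfl⟩
    · rintro ⟨n, hn⟩
      rw [← hE n] at hn
      obtain ⟨x, ⟨hx, hx'⟩, rfl⟩ := hn
      exact ⟨x, hx, hG n x hx'⟩
  refine ⟨G, ⟨hsm, ?_, ?_, hran.subset, ⟨univ, isOpen_univ, by rw [hran, inter_univ]⟩⟩, hran⟩
  · intro x
    rw [(hev x).fderiv_eq]
    exact (hOE _).imm x
  · have h1 : IsOpenEmbedding (codRestrict G X hsub) := by
      refine IsOpenEmbedding.of_continuous_injective_isOpenMap (hsm.continuous.codRestrict hsub) ?_ ?_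
      · exact hinj.codRestrict hsub
      · intro U hU
        obtain ⟨O, hO, hE⟩ := hopen U hU
        refine isOpen_induced_iff.2 ⟨O, hO, ?_⟩
        ext ⟨y, hy⟩
        simp only [mem_preimage, mem_image]
        constructor
        · intro h
          have h2 : y ∈ G '' U := by rw [hE]; exact ⟨hy, h⟩
          obtain ⟨x, hx, hxy⟩ := h2
          exact ⟨x, hx, Subtype.ext hxy⟩
        · rintro ⟨x, hx, hxy⟩
          have h2 : G x = y := congrArg Subtype.val hxy
          have h3 : y ∈ X ∩ O := by rw [← hE]; exact ⟨x, hx, h2⟩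
          exact h3.2
    exact IsEmbedding.subtypeVal.comp h1.isEmbedding

end Pool.Agent.Helper95.FX
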