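import Pool.Agent.Helper72.FX.StK

set_option autoImplicit false

/-!
# Project FX, chapter K, module PEN: preliminary lemmas
-/

namespace Pool.Agent.Helper95.FX

open Polynomial
open Pool.Agent.Helper72.FX

section basic

variable {B : Type} [CommRing B]

/-- the scalar action of `B` is the action through `C` -/
theorem C_smul_eq {Q : Type} [AddCommGroup Q] [Module B Q] [Module B[X] Q] [IsScalarTower B B[X] Q]
    (b : B) (q : Q) : (C b : B[X]) • q = b • q := by
  rw [← Polynomial.algebraMap_eq]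
  exact algebraMap_smul B[X] b q

/-- uniform exponent -/
theorem unif {N : Type} [AddCommGroup N] [Module B N] (E : B) (hf : Module.Finite B N)
    (h : ∀ y : N, ∃ k : ℕ, E ^ k • y = 0) : ∃ k : ℕ, ∀ y : N, E ^ k • y = 0 := by
  obtain ⟨S, hS⟩ := hf.fg_top
  choose k hk using h
  refine ⟨S.sup k, fun y => ?_⟩
  have hy : y ∈ Submodule.span B (S : Set N) := by rw [hS]; trivial
  induction hy using Submodule.span_induction with
  | mem x hx =>
    have h1 : k x ≤ S.sup k := Finset.le_sup hx
    obtain ⟨m, hm⟩ := Nat.exists_eq_add_of_le h1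
    rw [hm, add_comm, pow_add, mul_smul, hk, smul_zero]
  | zero => rw [smul_zero]
  | add x y _ _ hx hy => rw [smul_add, hx, hy, add_zero]
  | smul a x _ hx => rw [smul_comm, hx, smul_zero]

theorem Phi_single {Q : Type} [AddCommGroup Q] [Module B Q] [Module B[X] Q] [IsScalarTower B B[X] Q]
    (M : Submodule B Q) (n : ℕ) (m : M) :
    Phi M (PolynomialModule.single B n m) = (X ^ n : B[X]) • (m : Q) :=
  plift_single M.subtype n m

/-- the range of `Phi` -/
theorem range_Phi {Q : Type} [AddCommGroup Q] [Module B Q] [Module B[X] Q] [IsScalarTower B B[X] Q]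
    (M : Submodule B Q) : LinearMap.range (Phi M) = Submodule.span B[X] (M : Set Q) := by
  apply le_antisymm
  · rintro _ ⟨g, rfl⟩
    induction g using PolynomialModule.induction_linear with
    | zero => rw [map_zero]; exact Submodule.zero_mem _
    | add p q hp hq => rw [map_add]; exact Submodule.add_mem _ hp hq
    | single n m =>
      rw [Phi_single]
      exact Submodule.smul_mem _ _ (Submodule.subset_span m.2)
  · rw [Submodule.span_le]
    intro m hm
    refine ⟨PolynomialModule.single B 0 ⟨m, hm⟩, ?_⟩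
    rw [Phi_single, pow_zero, one_smul]

theorem gdl_iff {Q : Type} [AddCommGroup Q] [Module B Q] [Module B[X] Q] [IsScalarTower B B[X] Q]
    (M : Submodule B Q) : GdL M ↔ M.FG ∧ Submodule.span B[X] (M : Set Q) = ⊤ := by
  unfold GdL
  rw [← range_Phi, LinearMap.range_eq_top]

theorem gdl_mono {Q : Type} [AddCommGroup Q] [Module B Q] [Module B[X] Q] [IsScalarTower B B[X] Q]
    (M M' : Submodule B Q) (h : GdL M) (h' : M'.FG) (hle : M ≤ M') : GdL M' := by
  rw [gdl_iff] at h ⊢
  exact ⟨h', top_le_iff.1 (h.2 ▸ Submodule.span_mono hle)⟩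

theorem gdl_sup {Q : Type} [AddCommGroup Q] [Module B Q] [Module B[X] Q] [IsScalarTower B B[X] Q]
    (M M' : Submodule B Q) (h : GdL M) (h' : GdL M') : GdL (M ⊔ M') :=
  gdl_mono M _ h (h.1.sup h'.1) le_sup_left

/-- a good lattice containing a given finite set -/
theorem exists_gdl {Q : Type} [AddCommGroup Q] [Module B Q] [Module B[X] Q] [IsScalarTower B B[X] Q]
    (hf : Module.Finite B[X] Q) (T : Finset Q) : ∃ M : Submodule B Q, GdL M ∧ (T : Set Q) ⊆ M := by
  classical
  obtain ⟨S, hS⟩ := hf.fg_top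
  refine ⟨Submodule.span B ((S ∪ T : Finset Q) : Set Q), ?_, ?_⟩
  · rw [gdl_iff]
    refine ⟨⟨_, rfl⟩, top_le_iff.1 (hS ▸ Submodule.span_mono ?_)⟩
    intro x hx
    exact Submodule.subset_span (by simp only [Finset.coe_union]; exact Or.inl hx)
  · intro x hx
    exact Submodule.subset_span (by simp only [Finset.coe_union]; exact Or.inr hx)

/-- independence of the lattice -/
theorem VL_indep (hSNK : StSNK) (hPMX : StPMX) (hPTO : StPTO) (hPEA : StPEA) [IsNoetherianRing B]
    (I : Ideal B) (E s : B) {Λ : Type} [AddCommGroup Λ] (χB : AF B (kil I) Λ)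
    (τ : AF B[X] (kpw (pid I E s) (C E)) Λ) (hC : Cmp χB τ)
    {Q : Type} [AddCommGroup Q] [Module B Q] [Module B[X] Q] [IsScalarTower B B[X] Q]
    (M M' : Submodule B Q) (hQ : kil (pid I E s) Q) (h : GdL M) (h' : GdL M') :
    VL χB τ M = VL χB τ M' := by
  have h1 := hPEA hSNK hPMX hPTO B I E s Λ χB τ hC Q M (M ⊔ M') hQ h (gdl_sup M M' h h') le_sup_left
  have h2 := hPEA hSNK hPMX hPTO B I E s Λ χB τ hC Q M' (M ⊔ M') hQ h' (gdl_sup M M' h h') le_sup_right
  rw [h1, h2]

theorem tower_comp (Q : Type) [AddCommGroup Q] [Module B[X] Q] :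
    @IsScalarTower B B[X] Q _ _ (Module.compHom Q (C : B →+* B[X])).toSMul := by
  let _ := Module.compHom Q (C : B →+* B[X])
  refine ⟨fun b p q => ?_⟩
  change (b • p) • q = (C b : B[X]) • (p • q)
  rw [smul_smul, Polynomial.smul_eq_C_mul]

/-- the additive function -/
noncomputable def chiF {I : Ideal B} {E s : B} {Λ : Type} [AddCommGroup Λ] (χB : AF B (kil I) Λ)
    (τ : AF B[X] (kpw (pid I E s) (C E)) Λ) (Q : Type) [AddCommGroup Q] [Module B[X] Q] : Λ := by
  classical
  letI := Module.compHom Q (C : B →+* B[X])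
  haveI := tower_comp (B := B) Q
  exact if h : ∃ M : Submodule B Q, GdL M then VL χB τ h.choose else 0

theorem chiF_eq (hSNK : StSNK) (hPMX : StPMX) (hPTO : StPTO) (hPEA : StPEA) [IsNoetherianRing B]
    (I : Ideal B) (E s : B) {Λ : Type} [AddCommGroup Λ] (χB : AF B (kil I) Λ)
    (τ : AF B[X] (kpw (pid I E s) (C E)) Λ) (hC : Cmp χB τ)
    {Q : Type} [AddCommGroup Q] [inst : Module B Q] [Module B[X] Q] [IsScalarTower B B[X] Q]
    (M : Submodule B Q) (hQ : kil (pid I E s) Q) (h : GdL M) :
    chiF χB τ Q = VL χB τ M := by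
  have hinst : inst = Module.compHom Q (C : B →+* B[X]) :=
    Module.ext' _ _ fun b q => (C_smul_eq b q).symm
  have h1 : ∃ M : Submodule B Q, GdL M := ⟨M, h⟩
  subst hinst
  unfold chiF
  rw [dif_pos h1]
  let _ := Module.compHom Q (C : B →+* B[X])
  exact VL_indep hSNK hPMX hPTO hPEA I E s χB τ hC _ _ hQ h1.choose_spec h

end basic

end Pool.Agent.Helper95.FX
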