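import Pool.Agent.Helper95.FX.PenA

set_option autoImplicit false

/-!
# Project FX, chapter K, module PEN: the additive function of the pencil
-/

namespace Pool.Agent.Helper95.FX

open Polynomial
open Pool.Agent.Helper72.FX

section add

variable {B : Type} [CommRing B]

/-- additivity -/
theorem chiF_exact (hSNK : StSNK) (hPMX : StPMX) (hPTO : StPTO) (hPEA : StPEA) (hPEB : StPEB)
    [IsNoetherianRing B]
    (I : Ideal B) (E s : B) {Λ : Type} [AddCommGroup Λ] (χB : AF B (kil I) Λ)
    (τ : AF B[X] (kpw (pid I E s) (C E)) Λ) (hC : Cmp χB τ)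
    (Q1 Q Q2 : Type) [AddCommGroup Q1] [Module B[X] Q1] [AddCommGroup Q] [Module B[X] Q]
    [AddCommGroup Q2] [Module B[X] Q2]
    (i : Q1 →ₗ[B[X]] Q) (p : Q →ₗ[B[X]] Q2) (hf : Module.Finite B[X] Q) (hk : kil (pid I E s) Q)
    (hi : Function.Injective i) (he : Function.Exact i p) (hp : Function.Surjective p) :
    chiF χB τ Q = chiF χB τ Q1 + chiF χB τ Q2 := by
  classical
  let _ := Module.compHom Q1 (C : B →+* B[X])
  let _ := Module.compHom Q (C : B →+* B[X])
  let _ := Module.compHom Q2 (C : B →+* B[X])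
  have _ := tower_comp (B := B) Q1
  have _ := tower_comp (B := B) Q
  have _ := tower_comp (B := B) Q2
  have _ : IsNoetherian B[X] Q := isNoetherian_of_isNoetherianRing_of_finite _ _
  have hf1 : Module.Finite B[X] Q1 := Module.Finite.of_injective i hi
  obtain ⟨T, hT⟩ := hf1.fg_top
  obtain ⟨M, hM, hTM⟩ := exists_gdl (B := B) hf (T.image i)
  have hM1 : GdL (M.comap (i.restrictScalars B)) := by
    rw [gdl_iff]
    constructor
    · have _ : Module.Finite B M := Module.Finite.iff_fg.2 hM.1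
      have hN : IsNoetherian B M := isNoetherian_of_isNoetherianRing_of_finite _ _
      apply Submodule.fg_of_fg_map_injective (i.restrictScalars B) hi
      exact (isNoetherian_submodule.1 hN) _ (Submodule.map_comap_le _ _)
    · apply top_le_iff.1
      rw [← hT]
      apply Submodule.span_mono
      intro x hx
      exact hTM (by simp only [Finset.coe_image]; exact ⟨x, hx, rfl⟩)
  obtain ⟨hM2, hV⟩ := hPEB hSNK hPMX hPTO B I E s Λ χB τ Q1 Q Q2 i p M hk hi he hp hM hM1
  rw [chiF_eq hSNK hPMX hPTO hPEA I E s χB τ hC M hk hM,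
    chiF_eq hSNK hPMX hPTO hPEA I E s χB τ hC _ ((gd_kil _).inj _ _ i hi hk) hM1,
    chiF_eq hSNK hPMX hPTO hPEA I E s χB τ hC _ ((gd_kil _).surj _ _ p hp hk) hM2]
  exact hV

/-- the additive function of the pencil -/
noncomputable def chiA (hSNK : StSNK) (hPMX : StPMX) (hPTO : StPTO) (hPEA : StPEA) (hPEB : StPEB)
    [IsNoetherianRing B]
    (I : Ideal B) (E s : B) {Λ : Type} [AddCommGroup Λ] (χB : AF B (kil I) Λ)
    (τ : AF B[X] (kpw (pid I E s) (C E)) Λ) (hC : Cmp χB τ) : AF B[X] (kil (pid I E s)) Λ where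
  f := fun Q _ _ => chiF χB τ Q
  exact' := fun M N Q _ _ _ _ _ _ i p hf hk hi he hp =>
    chiF_exact hSNK hPMX hPTO hPEA hPEB I E s χB τ hC M N Q i p hf hk hi he hp

theorem C_mem_pid {I : Ideal B} {E s x : B} (hx : x ∈ I) : (C x : B[X]) ∈ pid I E s :=
  Ideal.mem_sup_left (Ideal.mem_map_of_mem _ hx)

theorem pel_mem_pid {I : Ideal B} {E s : B} : pel E s ∈ pid I E s :=
  Ideal.mem_sup_right (Ideal.mem_span_singleton_self _)

/-- (i) for the modules killed by `E` -/
theorem chiF_tors (hSNK : StSNK) (hPMX : StPMX) (hPTO : StPTO) (hPEA : StPEA)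
    [IsNoetherianRing B]
    (I : Ideal B) (E s : B) {Λ : Type} [AddCommGroup Λ] (χB : AF B (kil I) Λ)
    (τ : AF B[X] (kpw (pid I E s) (C E)) Λ) (hC : Cmp χB τ)
    (N : Type) [AddCommGroup N] [Module B[X] N] (hf : Module.Finite B[X] N)
    (hk : kil (pid I E s) N) (h0 : ∀ y : N, (C E : B[X]) • y = 0) : chiF χB τ N = τ.f N := by
  let _ := Module.compHom N (C : B →+* B[X])
  have _ := tower_comp (B := B) N
  obtain ⟨L, hL, -⟩ := exists_gdl (B := B) hf ∅
  have hLf : Module.Finite B L := Module.Finite.iff_fg.2 hL.1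
  have hLk : kpw I E L := by
    refine ⟨fun x hx y => ?_, 1, fun y => ?_⟩
    · apply Subtype.ext
      rw [Submodule.coe_smul, ← C_smul_eq, hk _ (C_mem_pid hx), Submodule.coe_zero]
    · apply Subtype.ext
      rw [pow_one, Submodule.coe_smul, ← C_smul_eq, h0, Submodule.coe_zero]
  rw [chiF_eq hSNK hPMX hPTO hPEA I E s χB τ hC L hk hL]
  unfold VL
  rw [hC L hLf hLk]
  obtain ⟨hc1, hc2⟩ := (hPTO hPMX B I E s).2.1 L hLf hLk
  have hle : LinearMap.range (LinearMap.lsmul B[X] (PolynomialModule B L) (pel E s)) ≤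
      LinearMap.ker (Phi L) := by
    rintro _ ⟨g, rfl⟩
    rw [LinearMap.mem_ker, LinearMap.lsmul_apply, map_smul, hk _ pel_mem_pid]
  let i : KM E s L →ₗ[B[X]] Ck (pel E s) (PolynomialModule B L) :=
    Submodule.mapQ _ _ (LinearMap.ker (Phi L)).subtype le_rfl
  let p : Ck (pel E s) (PolynomialModule B L) →ₗ[B[X]] N := Submodule.liftQ _ (Phi L) hle
  have hi : Function.Injective i := by
    rw [injective_iff_map_eq_zero]
    intro x hx
    obtain ⟨g, rfl⟩ := Submodule.Quotient.mk_surjective _ x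
    rw [Submodule.Quotient.mk_eq_zero, Submodule.mem_comap]
    exact (Submodule.Quotient.mk_eq_zero _).1 hx
  have hp : Function.Surjective p := by
    intro y
    obtain ⟨g, rfl⟩ := hL.2 y
    exact ⟨Submodule.Quotient.mk g, rfl⟩
  have he : Function.Exact i p := by
    intro y
    obtain ⟨g, rfl⟩ := Submodule.Quotient.mk_surjective _ y
    constructor
    · intro h
      exact ⟨Submodule.Quotient.mk ⟨g, h⟩, rfl⟩
    · rintro ⟨x, hx⟩
      obtain ⟨g', rfl⟩ := Submodule.Quotient.mk_surjective _ x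
      rw [← hx]
      exact g'.2
  have hmain := τ.exact' _ _ _ i p hc1 hc2 hi he hp
  rw [hmain]
  abel

/-- `chi = tau` on the modules killed by a power of `E` -/
theorem chiF_pow (hSNK : StSNK) (hPMX : StPMX) (hPTO : StPTO) (hPEA : StPEA) (hPEB : StPEB)
    [IsNoetherianRing B]
    (I : Ideal B) (E s : B) {Λ : Type} [AddCommGroup Λ] (χB : AF B (kil I) Λ)
    (τ : AF B[X] (kpw (pid I E s) (C E)) Λ) (hC : Cmp χB τ) (k : ℕ) :
    ∀ (N : Type) [AddCommGroup N] [Module B[X] N], Module.Finite B[X] N →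
    kil (pid I E s) N → (∀ y : N, (C E : B[X]) ^ k • y = 0) → chiF χB τ N = τ.f N := by
  induction k with
  | zero =>
    intro N _ _ hf hk h0
    have _ : Subsingleton N := ⟨fun a b => by
      have h1 := h0 a
      have h2 := h0 b
      rw [pow_zero, one_smul] at h1 h2
      rw [h1, h2]⟩
    rw [τ.of_subsingleton (gd_kpw _ _) N]
    exact (chiA hSNK hPMX hPTO hPEA hPEB I E s χB τ hC).of_subsingleton (gd_kil _) N
  | succ k ih =>
    intro N _ _ hf hk h0
    have _ : IsNoetherian B[X] N := isNoetherian_of_isNoetherianRing_of_finite _ _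
    let S : Submodule B[X] N := LinearMap.range (LinearMap.lsmul B[X] N (C E))
    have h1 := (chiA hSNK hPMX hPTO hPEA hPEB I E s χB τ hC).quot S hf hk
    change chiF χB τ N = chiF χB τ S + chiF χB τ (N ⧸ S) at h1
    have h2 := τ.quot S hf ⟨hk, k + 1, h0⟩
    have h3 : chiF χB τ S = τ.f S := by
      refine ih S inferInstance ((gd_kil _).inj _ _ S.subtype S.injective_subtype hk) ?_
      rintro ⟨_, y, rfl⟩
      apply Subtype.ext
      change (C E : B[X]) ^ k • ((C E : B[X]) • y) = (0 : N)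
      rw [smul_smul, ← pow_succ, h0]
    have h4 : chiF χB τ (N ⧸ S) = τ.f (N ⧸ S) := by
      refine chiF_tors hSNK hPMX hPTO hPEA I E s χB τ hC (N ⧸ S) inferInstance
        ((gd_kil _).surj _ _ S.mkQ S.mkQ_surjective hk) ?_
      intro y
      obtain ⟨g, rfl⟩ := Submodule.Quotient.mk_surjective _ y
      rw [← Submodule.Quotient.mk_smul, Submodule.Quotient.mk_eq_zero]
      exact ⟨g, rfl⟩
    rw [h1, h2, h3, h4]

end add

end Pool.Agent.Helper95.FX
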